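import Pool.Agent.H932R4.MO.Asm3

set_option autoImplicit false

open Finset Filter Topology

namespace Pool.Agent.H932R4.MO

theorem local_tendsto (g : ℕ → ℝ) (h1 : g 1 = 1)
    (hpow : ∀ p k : ℕ, p.Prime → 2 ≤ k → g (p ^ k) = 0) (hlt : ∀ p : ℕ, p.Prime → |g p| < 1)
    (p : ℕ) (hp : p.Prime) :
    ∃ L : ℂ, L ≠ 0 ∧ Tendsto (fun K : ℕ => ∑ k ∈ range K, ((g (p ^ k) : ℝ) : ℂ)) atTop (𝓝 L) := by
  refine ⟨1 + ((g p : ℝ) : ℂ), ?_, ?_⟩
  · intro h
    have h2 : (1 + g p : ℝ) = 0 := by exact_mod_cast h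
    have h3 := abs_lt.1 (hlt p hp)
    linarith [h3.1]
  · apply tendsto_const_nhds.congr'
    filter_upwards [eventually_ge_atTop 2] with K hK
    obtain ⟨m, rfl⟩ := Nat.exists_eq_add_of_le hK
    rw [Finset.sum_range_add, Finset.sum_range_succ, Finset.sum_range_one, pow_zero, pow_one, h1]
    rw [Finset.sum_eq_zero (s := range m)]
    · simp
    · intro k _
      rw [hpow p (2 + k) hp (by omega)]
      simp

theorem psum_cast (g : ℕ → ℝ) (h0 : g 0 = 0) (n : ℕ) :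
    ∑ k ∈ Icc 1 n, ((g k : ℝ) : ℂ) = ((S g n : ℝ) : ℂ) := by
  rw [S_eq g h0]
  push_cast
  rfl

end Pool.Agent.H932R4.MO
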